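import Pool.Agent.W318.PG.URAT
import Pool.Agent.W619.TW.GTCompact

/-!
# Products of a variety and curves: splitting off one curve

Adapted from `Pool.Agent.W318.PG.URAT` (the case of a rational curve).
-/

set_option autoImplicit false
set_option linter.overlappingInstances false
set_option linter.unusedSectionVars false

universe u v

open Polynomial FF IntermediateField

namespace Pool.Agent.V1174.GT

open Pool.Agent.W603.LV Pool.Agent.W619.PQ Pool.Agent.W619.Y Pool.Agent.W619.TW
  Pool.Agent.W318.PG.URAT

section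

variable {k L : Type*} [Field k] [Field L] [Algebra k L]

theorem cur_mixed {d n : ℕ} (M : IntermediateField k L) (F : Fin n → IntermediateField k L)
    [hF : ∀ i, IsFF k (F i)] (hd : Algebra.trdeg k M = d)
    (hn : Algebra.trdeg k L = (d + n : ℕ)) (hsup : M ⊔ (⨆ i, F i) = ⊤) (i0 : Fin n) :
    Cur (M ⊔ ⨆ j : {j : Fin n // j ≠ i0}, F j.1) (F i0) := by
  classical
  let ι := {j : Fin n // j ≠ i0}
  let M' : IntermediateField k L := M ⊔ ⨆ j : ι, F j.1
  have hle0 : M ≤ M' := le_sup_left
  have hle : ∀ j, j ≠ i0 → F j ≤ M' := fun j hj =>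
    le_trans (le_iSup (fun j : ι => F j.1) ⟨j, hj⟩) le_sup_right
  refine ⟨hF i0, ?_, ?_⟩
  · intro t ht halg
    choose x hx using fun i => IsFF.exists_transcendental (k := k) (K := F i)
    obtain ⟨s, hs⟩ := exists_isTranscendenceBasis k M
    let T : Set L := (Subtype.val '' s) ∪ Set.range fun j : ι => (x j.1 : L)
    let S : IntermediateField k L := adjoin k T
    let A : IntermediateField S L := algebraicClosure S L
    have hMA : M' ≤ A.restrictScalars k := by
      refine sup_le ?_ (iSup_le fun j z hz => ?_)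
      · intro z hz
        rw [mem_restrictScalars, mem_algebraicClosure_iff]
        exact alg_of_basis M s hs S
          (fun y hy => subset_adjoin k _ (Or.inl ⟨y, hy, rfl⟩)) ⟨z, hz⟩
      · rw [mem_restrictScalars, mem_algebraicClosure_iff]
        exact alg_of_mem (F j.1) (hx j.1) S (subset_adjoin k _ (Or.inr ⟨j, rfl⟩)) ⟨z, hz⟩
    have up : ∀ (N : IntermediateField k L), N ≤ A.restrictScalars k → ∀ z : L,
        IsAlgebraic N z → z ∈ A := by
      intro N hN z hz
      let f : N →+* A := (algebraMap N L).codRestrict A fun z => hN z.2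
      have h1 : IsAlgebraic A z :=
        hz.ringHom_of_comp_eq f (RingHom.id L) f.injective (by ext z; rfl)
      exact mem_algebraicClosure_iff.2 (h1.restrictScalars S)
    have htA : (t : L) ∈ A := up M' hMA _ halg
    have hFA : F i0 ≤ A.restrictScalars k := fun z hz =>
      up (A.restrictScalars k) le_rfl z (alg_of_mem (F i0) ht (A.restrictScalars k) htA ⟨z, hz⟩)
    have hall : ∀ z : L, z ∈ A := by
      have h1 : M ⊔ (⨆ i, F i) ≤ A.restrictScalars k := by
        refine sup_le (hle0.trans hMA) (iSup_le fun j => ?_)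
        by_cases hj : j = i0
        · rw [hj]; exact hFA
        · exact (hle j hj).trans hMA
      rw [hsup] at h1
      exact fun z => h1 (by trivial : z ∈ (⊤ : IntermediateField k L))
    have hLA : ∀ z : L, IsAlgebraic S z := fun z => mem_algebraicClosure_iff.1 (hall z)
    have h4 : Algebra.IsAlgebraic (Algebra.adjoin k T) L := alg_adjoin hLA
    have h5 := Algebra.IsAlgebraic.trdeg_le_cardinalMk k T
    rw [hn] at h5
    have h6 : Cardinal.mk (Set.range fun j : ι => (x j.1 : L)) ≤ ((n - 1 : ℕ) : Cardinal) := by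
      have h7 : Cardinal.lift.{0} (Cardinal.mk (Set.range fun j : ι => (x j.1 : L))) ≤
          Cardinal.lift (Cardinal.mk ι) := Cardinal.mk_range_le_lift
      have h8 : Fintype.card ι = n - 1 := by
        rw [Fintype.card_subtype_compl, Fintype.card_fin, Fintype.card_subtype_eq]
      rw [Cardinal.mk_fintype ι, h8] at h7
      simpa using h7
    have h6' : Cardinal.mk (Subtype.val '' s : Set L) ≤ ((d : ℕ) : Cardinal) := by
      have h7 : Cardinal.mk (Subtype.val '' s : Set L) ≤ Cardinal.mk s := Cardinal.mk_image_le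
      have h8 := hs.cardinalMk_eq_trdeg
      rw [hd] at h8
      exact h7.trans h8.le
    have h7 : Cardinal.mk T ≤ ((d + (n - 1) : ℕ) : Cardinal) := by
      refine (Cardinal.mk_union_le _ _).trans ?_
      push_cast
      exact add_le_add h6' h6
    have h8 : d + n ≤ d + (n - 1) := by exact_mod_cast h5.trans h7
    have h9 : 0 < n := i0.pos
    omega
  · rw [eq_top_iff, ← hsup]
    refine sup_le (hle0.trans le_sup_left) (iSup_le fun j => ?_)
    by_cases hj : j = i0
    · rw [hj]; exact le_sup_right
    · exact (hle j hj).trans le_sup_left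

end

variable {k : Type v} {L : Type u} [Field k] [CharZero k] [IsAlgClosed k] [Field L] [Algebra k L]

/-- If one of the curves is rational or elliptic, the quotient is covered by images of this
curve. -/
theorem covered {d n : ℕ} (hn : Algebra.trdeg k L = (d + n : ℕ)) (M : IntermediateField k L)
    [Algebra.EssFiniteType k M] (hM : Algebra.trdeg k M = d)
    (F : Fin n → IntermediateField k L) [hF : ∀ i, IsFF k (F i)] (hsup : M ⊔ (⨆ i, F i) = ⊤)
    (G : Subgroup (L ≃ₐ[k] L)) (i : Fin n) (hi : (∃ t : F i, k⟮t⟯ = ⊤) ∨ IsElliptic (F i)) :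
    IsRatEllCovered k (fixedField G) (d + n) := by
  have hcur := cur_mixed M F hM hn hsup i
  have hFF := hcur.isFF
  obtain ⟨M', hM'⟩ : ∃ M' : IntermediateField k L,
      M' = M ⊔ ⨆ j : {j : Fin n // j ≠ i}, F j.1 := ⟨_, rfl⟩
  rw [← hM'] at hcur hFF
  have hess : Algebra.EssFiniteType k M' := by
    rw [hM']
    exact essFiniteType_iff.2 (fg_sup (essFiniteType_iff.1 inferInstance)
      (fg_iSup fun j => essFiniteType_iff.1 (IsFF.ess)))
  have htr : Algebra.trdeg k M' + 1 = ((d + n : ℕ) : Cardinal) := by
    rw [← hn, ← trdeg_add_eq k M' (A := L), hFF.trdeg]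
  exact ⟨L, _, _, M', F i, hess, by simpa using htr, hF i, hcur.sup, hn, hi,
    ⟨(fixedField G).val⟩⟩

end Pool.Agent.V1174.GT
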