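import Pool.Agent.V1174.GT.A
import Pool.Agent.W619.Y.Main
import Pool.Agent.W460.PG.ONE
import Pool.Agent.W479.PG.Fib
import Pool.Agent.W636.PG.Trans

/-!
# Varieties covered by images of a rational or elliptic curve are not of general type
-/

set_option autoImplicit false
set_option linter.overlappingInstances false
set_option linter.unusedSectionVars false

universe u v

open Polynomial FF IntermediateField

namespace Pool.Agent.V1174.GT

open Pool.Agent.W619.PQ Pool.Agent.W619.PL Pool.Agent.W619.TW
  Pool.Agent.W603.LV Pool.Agent.W619.Y Pool.Agent.W460.PG.ONE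

section

variable {k K : Type*} [Field k] [Field K] [Algebra k K]

theorem dom_one_iff (v : Place k K) (j : ℕ) (f : K) : Dom v {1} j f ↔ v.Reg f := by
  constructor
  · rintro (h | ⟨s, hs, -, h⟩)
    · exact Or.inl h
    · rw [Finset.mem_singleton] at hs
      rw [hs, v.ord_one, mul_zero] at h
      exact Or.inr h
  · rintro (h | h)
    · exact Or.inl h
    · exact Or.inr ⟨1, Finset.mem_singleton_self 1, one_ne_zero, by
        rw [v.ord_one, mul_zero]; exact h⟩

variable {n m m' j : ℕ} {Bd : Place k K → Prop} {ω ω' : (Fin n → Derivation k K K) → K}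

theorem sec_cast (j' : ℕ) (h : IsSec k K n Bd {1} m j ω) : IsSec k K n Bd {1} m j' ω :=
  ⟨h.1, fun v h1 h2 D hD => (dom_one_iff v j' _).2 ((dom_one_iff v j _).1 (h.2.1 v h1 h2 D hD)),
    fun v h1 h2 D hD => (dom_one_iff v j' _).2 ((dom_one_iff v j _).1 (h.2.2 v h1 h2 D hD))⟩

theorem sec_one : IsSec k K n Bd {1} 0 j (fun _ => 1) :=
  ⟨fun A D => by simp, fun v _ _ D _ => (dom_one_iff v j _).2 (Or.inr (by rw [v.ord_one])),
    fun v _ _ D _ => (dom_one_iff v j _).2 (Or.inr (by rw [v.ord_one]))⟩

theorem sec_mul (h : IsSec k K n Bd {1} m j ω) (h' : IsSec k K n Bd {1} m' j ω') :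
    IsSec k K n Bd {1} (m + m') j (fun D => ω D * ω' D) := by
  refine ⟨fun A D => ?_, fun v h1 h2 D hD => (dom_one_iff v j _).2 (v.reg_mul
    ((dom_one_iff v j _).1 (h.2.1 v h1 h2 D hD)) ((dom_one_iff v j _).1 (h'.2.1 v h1 h2 D hD))),
    fun v h1 h2 D hD => (dom_one_iff v j _).2 (v.reg_mul
    ((dom_one_iff v j _).1 (h.2.2 v h1 h2 D hD)) ((dom_one_iff v j _).1 (h'.2.2 v h1 h2 D hD)))⟩
  change ω _ * ω' _ = _
  rw [h.1 A D, h'.1 A D, pow_add]
  ring

theorem sec_pow (h : IsSec k K n Bd {1} m j ω) (i : ℕ) :
    IsSec k K n Bd {1} (i * m) j (fun D => ω D ^ i) := by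
  induction i with
  | zero => simpa using sec_one
  | succ i ih =>
    have h1 := sec_mul ih h
    have e : i * m + m = (i + 1) * m := by ring
    rw [e] at h1
    simpa [pow_succ] using h1

end

theorem trdeg_of_alg {k : Type v} {M A : Type u} [Field k] [Field M] [Field A] [Algebra k M]
    [Algebra M A] [Algebra k A] [IsScalarTower k M A] [Algebra.IsAlgebraic M A] :
    Algebra.trdeg k A = Algebra.trdeg k M := by
  have h3 := trdeg_add_eq k M (A := A)
  have h4 : Algebra.trdeg M A = 0 := trdeg_eq_zero
  rw [h4, add_zero] at h3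
  exact h3.symm

/-- The product with a rational or elliptic curve is not of general type. -/
theorem not_kodTr_of_curve {k : Type v} {L : Type u} [Field k] [CharZero k] [IsAlgClosed k]
    [Field L] [Algebra k L] (M F : IntermediateField k L) [IsFF k F] (d : ℕ)
    (hM : Algebra.trdeg k M = d) (hL : Algebra.trdeg k L = (d + 1 : ℕ)) (hsup : M ⊔ F = ⊤)
    (hdeg : canDeg k F ≤ 0) : ¬ KodTr k L (d + 1) (d + 1) := by
  classical
  rintro ⟨m, hm, ω, hω, D, hD, hind⟩
  obtain ⟨y, hy⟩ := exists_basis M d hM
  obtain ⟨t, ht⟩ := IsFF.exists_transcendental (k := k) (K := F)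
  have hx := basis_cons M F d hL hsup y hy t ht
  choose E hE using fun j => exists_dual (Fin.cons (t : L) (fun i => (y i : L)) : Fin (d + 1) → L)
    hx j
  have hE0t : E 0 (t : L) = 1 := by
    have h := hE 0 0
    rw [Fin.cons_zero, if_pos rfl] at h
    exact h
  have hE0M : ∀ μ : M, E 0 (μ : L) = 0 := by
    intro μ
    refine der_zero (K := M) (L := L) ((E 0).compAlgebraMap M) y hy (fun i => ?_) μ
    change E 0 (y i : L) = 0
    have h := hE 0 i.succ
    rw [Fin.cons_succ, if_neg (Fin.succ_ne_zero i)] at h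
    exact h
  have hEy : ∀ l j : Fin d, E l.succ (y j : L) = if l = j then 1 else 0 := by
    intro l j
    have h := hE l.succ j.succ
    rw [Fin.cons_succ] at h
    rw [h]
    by_cases hlj : l = j
    · rw [if_pos hlj, if_pos (by rw [hlj])]
    · rw [if_neg hlj, if_neg (fun h => hlj (Fin.succ_injective _ h).symm)]
  have hEF : ∀ l : Fin d, ∀ β : F, E l.succ (β : L) = 0 := by
    intro l β
    obtain ⟨r, -, hr2⟩ := ratio' (K := L) ht β
    have h3 := hr2 (E l.succ)
    change E l.succ (β : L) = (r : L) * E l.succ (t : L) at h3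
    have h4 := hE l.succ 0
    rw [Fin.cons_zero, if_neg (Fin.succ_ne_zero l).symm] at h4
    rw [h3, h4, mul_zero]
  obtain ⟨b0, A0, hb0, hW⟩ :=
    Pool.Agent.W479.PG.main k L M F d hM hL hsup y hy t ht E hE0M hE0t hEF hEy {1}
  have heval : ∀ l, ω l D = (Matrix.of fun i j => D i ((Fin.cons (t : L) (fun i => (y i : L)) :
      Fin (d + 1) → L) j)).det ^ m * ω l E := fun l =>
    eval _ hx E (fun i j => hE j i) (hω l).1 D
  have hne : ∀ l, ω l E ≠ 0 := by
    intro l h
    exact hD l (by rw [heval, h, mul_zero])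
  have hdet : (Matrix.of fun i j => D i ((Fin.cons (t : L) (fun i => (y i : L)) :
      Fin (d + 1) → L) j)).det ^ m ≠ 0 := by
    intro h
    exact hD 0 (by rw [heval, h, zero_mul])
  have hratio : ∀ l : Fin (d + 1), ω l.succ D / ω 0 D = ω l.succ E / ω 0 E := by
    intro l
    rw [heval, heval, mul_div_mul_left _ _ hdet]
  have halg : ∀ l : Fin (d + 1), IsAlgebraic M (ω l.succ E / ω 0 E) := by
    intro l
    obtain ⟨W, hWfin, hWr, hWmem⟩ := hW (A0 * m)
    have hWr' : Module.finrank k W ≤ A0 := by
      have h1 : max 0 (((A0 * m : ℕ) : ℤ) * canDeg k F + A0) ≤ (A0 : ℤ) := by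
        refine max_le (by positivity) ?_
        have h2 : ((A0 * m : ℕ) : ℤ) * canDeg k F ≤ 0 :=
          mul_nonpos_of_nonneg_of_nonpos (by positivity) hdeg
        linarith
      exact_mod_cast hWr.trans h1
    let b := Module.finBasis k W
    have hspan : Submodule.span M ((fun β : F => (β : L)) '' (W : Set F)) ≤
        Submodule.span M (Set.range fun i => ((b i : F) : L)) := by
      rw [Submodule.span_le]
      rintro _ ⟨β, hβ, rfl⟩
      have h3 := b.sum_repr ⟨β, hβ⟩
      have h4 : (β : L) = ∑ i, (algebraMap k M (b.repr ⟨β, hβ⟩ i)) • ((b i : F) : L) := by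
        have h5 := congrArg (fun z : W => (((z : F)) : L)) h3
        change ((((∑ i, b.repr ⟨β, hβ⟩ i • b i : W)) : F) : L) = (β : L) at h5
        rw [← h5, AddSubmonoidClass.coe_finsetSum, AddSubmonoidClass.coe_finsetSum]
        refine Finset.sum_congr rfl fun i _ => ?_
        rw [algebraMap_smul]
        rfl
      change (β : L) ∈ _
      rw [h4]
      exact Submodule.sum_mem _ fun i _ => Submodule.smul_mem _ _ (Submodule.subset_span ⟨i, rfl⟩)
    have hfr : Module.finrank M (Submodule.span M (Set.range fun i => ((b i : F) : L))) ≤ A0 := by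
      have h1 := finrank_range_le_card (R := M) (fun i => ((b i : F) : L))
      rw [Fintype.card_fin] at h1
      exact (show Module.finrank M (Submodule.span M (Set.range fun i => ((b i : F) : L))) ≤ _
        from h1).trans hWr'
    have hmem : ∀ i : Fin (A0 + 1), b0 * (ω 0 E ^ (A0 - (i : ℕ)) * ω l.succ E ^ (i : ℕ)) ∈
        Submodule.span M (Set.range fun i => ((b i : F) : L)) := by
      intro i
      refine hspan (hWmem (fun D => ω 0 D ^ (A0 - (i : ℕ)) * ω l.succ D ^ (i : ℕ)) ?_)
      have h1 := sec_mul (sec_pow (hω 0) (A0 - (i : ℕ))) (sec_pow (hω l.succ) (i : ℕ))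
      have e : (A0 - (i : ℕ)) * m + (i : ℕ) * m = A0 * m := by
        rw [← add_mul, Nat.sub_add_cancel (by omega)]
      rw [e] at h1
      exact sec_cast 1 h1
    let g : Fin (A0 + 1) → Submodule.span M (Set.range fun i => ((b i : F) : L)) :=
      fun i => ⟨_, hmem i⟩
    have hfin : Module.Finite M (Submodule.span M (Set.range fun i => ((b i : F) : L))) :=
      Module.Finite.span_of_finite M (Set.finite_range _)
    have hdep : ¬ LinearIndependent M g := by
      intro h
      have := h.fintype_card_le_finrank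
      rw [Fintype.card_fin] at this
      omega
    rw [Fintype.not_linearIndependent_iff] at hdep
    obtain ⟨c, hc, i0, hi0⟩ := hdep
    have hc' : ∑ i : Fin (A0 + 1), (c i : L) *
        (b0 * (ω 0 E ^ (A0 - (i : ℕ)) * ω l.succ E ^ (i : ℕ))) = 0 := by
      have h1 := congrArg (fun z : Submodule.span M (Set.range fun i => ((b i : F) : L)) =>
        (z : L)) hc
      change (((∑ i, c i • g i : Submodule.span M (Set.range fun i => ((b i : F) : L)))) : L) = 0
        at h1
      rw [AddSubmonoidClass.coe_finsetSum] at h1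
      exact h1
    have hf : ∀ i : Fin (A0 + 1), ω 0 E ^ (A0 - (i : ℕ)) * ω l.succ E ^ (i : ℕ) =
        ω 0 E ^ A0 * (ω l.succ E / ω 0 E) ^ (i : ℕ) := by
      intro i
      have h0 := hne 0
      have e : ω 0 E ^ A0 = ω 0 E ^ (A0 - (i : ℕ)) * ω 0 E ^ (i : ℕ) := by
        rw [← pow_add, Nat.sub_add_cancel (by omega)]
      rw [e, div_pow]
      field_simp
    have hsum : ∑ i : Fin (A0 + 1), (c i : L) * (ω l.succ E / ω 0 E) ^ (i : ℕ) = 0 := by
      have h1 : (b0 * ω 0 E ^ A0) *
          ∑ i : Fin (A0 + 1), (c i : L) * (ω l.succ E / ω 0 E) ^ (i : ℕ) = 0 := by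
        rw [← hc', Finset.mul_sum]
        refine Finset.sum_congr rfl fun i _ => ?_
        rw [hf i]
        ring
      exact (mul_eq_zero.1 h1).resolve_left (mul_ne_zero hb0 (pow_ne_zero _ (hne 0)))
    refine ⟨∑ i : Fin (A0 + 1), Polynomial.C (c i) * Polynomial.X ^ (i : ℕ), ?_, ?_⟩
    · intro h0
      apply hi0
      have h1 := congrArg (fun P => Polynomial.coeff P (i0 : ℕ)) h0
      simp only [Polynomial.finsetSum_coeff, Polynomial.coeff_C_mul, Polynomial.coeff_X_pow,
        Polynomial.coeff_zero] at h1
      rw [Finset.sum_eq_single i0] at h1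
      · simpa using h1
      · intro i _ hi
        rw [if_neg (fun h => hi (Fin.ext h.symm)), mul_zero]
      · intro h
        exact absurd (Finset.mem_univ _) h
    · rw [map_sum]
      rw [← hsum]
      refine Finset.sum_congr rfl fun i _ => ?_
      rw [map_mul, map_pow, Polynomial.aeval_X, Polynomial.aeval_C]
      rfl
  -- the transcendence degree
  let A : IntermediateField M L := algebraicClosure M L
  let f' : Fin (d + 1) → A := fun l => ⟨ω l.succ E / ω 0 E, mem_algebraicClosure_iff.2 (halg l)⟩
  have hind' : AlgebraicIndependent k f' := by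
    have h1 : Function.Injective ((A.val.restrictScalars k : A →ₐ[k] L)) := Subtype.val_injective
    rw [← AlgHom.algebraicIndependent_iff (A.val.restrictScalars k) h1]
    have h2 : (fun l : Fin (d + 1) => ω l.succ D / ω 0 D) = (A.val.restrictScalars k) ∘ f' := by
      funext l
      rw [hratio l]
      rfl
    rw [← h2]
    exact hind
  have h1 := hind'.lift_cardinalMk_le_trdeg
  have h4 : Algebra.IsAlgebraic M A := algebraicClosure.isAlgebraic M L
  have h2 : Algebra.trdeg k A = d := (trdeg_of_alg (k := k) (M := M) (A := A)).trans hM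
  rw [h2] at h1
  simp only [Cardinal.mk_fin, Cardinal.lift_natCast] at h1
  have h5 : d + 1 ≤ d := by exact_mod_cast h1
  omega

/-- Pull-back of pluricanonical forms with algebraically independent ratios. -/
theorem kodTr_pull {k : Type v} {K L : Type u} [Field k] [CharZero k] [Field K] [Field L]
    [Algebra k K] [Algebra k L] [Algebra K L] [IsScalarTower k K L] [FiniteDimensional K L]
    (n : ℕ) (hn : Algebra.trdeg k K = n)
    (hfin : ∀ y : Fin n → K, IsTranscendenceBasis k y →
      FiniteDimensional (IntermediateField.adjoin k (Set.range y)) K) {h : ℕ}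
    (hK : KodTr k K n h) : KodTr k L n h := by
  classical
  obtain ⟨m, hm, ω, hω, D, hD, hind⟩ := hK
  obtain ⟨y, hy⟩ := Pool.Agent.W636.PG.exists_basis k K n hn
  obtain ⟨E, hE⟩ := Pool.Agent.W636.PG.exists_duals k K n y hy
  have hyL : IsTranscendenceBasis k (algebraMap K L ∘ y) := hy.algebraMap_comp
  obtain ⟨E', hE'⟩ := Pool.Agent.W636.PG.exists_duals k L n _ hyL
  have hdet : (Matrix.of fun a b => E' a (algebraMap K L (y b))).det = 1 := by
    have h1 : (Matrix.of fun a b => E' a (algebraMap K L (y b))) = 1 := by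
      ext a b
      rw [Matrix.of_apply, Matrix.one_apply]
      exact hE' a b
    rw [h1, Matrix.det_one]
  have hBd : (BdUp (L := L) (fun _ : Place k K => False)) = fun _ => False := by
    funext w
    simp [BdUp]
  have heval : ∀ l, ω l D = (Matrix.of fun i j => D i (y j)).det ^ m * ω l E := fun l =>
    Pool.Agent.W636.PG.form_eq k K n m y hy E hE (ω l) (hω l).1 D
  have hne : ∀ l, ω l E ≠ 0 := by
    intro l h0
    exact hD l (by rw [heval, h0, mul_zero])
  have hdetD : (Matrix.of fun i j => D i (y j)).det ^ m ≠ 0 := by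
    intro h0
    exact hD 0 (by rw [heval, h0, zero_mul])
  refine ⟨m, hm, fun l D' => (Matrix.of fun a b => D' a (algebraMap K L (y b))).det ^ m *
    algebraMap K L (ω l E), fun l => ?_, E', fun l => ?_, ?_⟩
  · have h1 := pPULL k K L n hn hfin (fun _ => False) {1} m 0 y E hy hE (ω l) (hω l)
    rw [hBd] at h1
    simpa using h1
  · change (Matrix.of fun a b => E' a (algebraMap K L (y b))).det ^ m *
      algebraMap K L (ω l E) ≠ 0
    rw [hdet, one_pow, one_mul]
    exact (_root_.map_ne_zero _).2 (hne l)
  · have h2 : (fun l : Fin h => ((Matrix.of fun a b => E' a (algebraMap K L (y b))).det ^ m *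
        algebraMap K L (ω l.succ E)) / ((Matrix.of fun a b => E' a (algebraMap K L (y b))).det ^ m *
        algebraMap K L (ω 0 E))) =
        (IsScalarTower.toAlgHom k K L) ∘ (fun l : Fin h => ω l.succ D / ω 0 D) := by
      funext l
      change _ = algebraMap K L (ω l.succ D / ω 0 D)
      rw [heval, heval, mul_div_mul_left _ _ hdetD, hdet, one_pow, one_mul, one_mul, map_div₀]
    change AlgebraicIndependent k (fun l : Fin h =>
      ((Matrix.of fun a b => E' a (algebraMap K L (y b))).det ^ m *
        algebraMap K L (ω l.succ E)) / ((Matrix.of fun a b => E' a (algebraMap K L (y b))).det ^ m *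
        algebraMap K L (ω 0 E)))
    rw [h2]
    exact hind.map' (f := IsScalarTower.toAlgHom k K L) (algebraMap K L).injective

theorem fd_of_alg {K0 L : Type*} [Field K0] [Field L] [Algebra K0 L] [Algebra.EssFiniteType K0 L]
    [Algebra.IsAlgebraic K0 L] : FiniteDimensional K0 L := by
  obtain ⟨s, hs⟩ := IntermediateField.fg_top K0 L
  have h1 : FiniteDimensional K0 (IntermediateField.adjoin K0 (s : Set L)) :=
    IntermediateField.finiteDimensional_adjoin fun x _ =>
      (Algebra.IsAlgebraic.isAlgebraic x).isIntegral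
  rw [hs] at h1
  exact h1.equiv IntermediateField.topEquiv.toLinearEquiv

/-- A variety which is covered by images of a rational or elliptic curve is not of general type. -/
theorem not_kodTr_of_covered {k : Type v} {K : Type u} [Field k] [CharZero k] [IsAlgClosed k]
    [Field K] [Algebra k K] (n : ℕ) (hn : Algebra.trdeg k K = n)
    (hc : IsRatEllCovered k K n) : ¬ KodTr k K n n := by
  classical
  obtain ⟨L, _, _, M, E, hess, htr, hE, hsup, hL, hre, ⟨f⟩⟩ := hc
  intro hK
  let _ : Algebra K L := f.toRingHom.toAlgebra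
  have hst : IsScalarTower k K L := IsScalarTower.of_algebraMap_eq fun x => (f.commutes x).symm
  have hLess : Algebra.EssFiniteType k L := by
    rw [← IntermediateField.fg_top_iff, ← hsup]
    exact fg_sup (essFiniteType_iff.1 inferInstance) (essFiniteType_iff.1 (IsFF.ess))
  have halg : Algebra.IsAlgebraic K L := by
    have h1 := trdeg_add_eq k K (A := L)
    rw [hn, hL] at h1
    have h2 : Algebra.trdeg K L = 0 := by
      have h3 : ((n : ℕ) : Cardinal) + Algebra.trdeg K L = ((n : ℕ) : Cardinal) + 0 := by
        rw [h1, add_zero]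
      exact Cardinal.eq_of_add_eq_add_left h3 Cardinal.natCast_lt_aleph0
    exact trdeg_eq_zero_iff.1 h2
  have hKL : Algebra.EssFiniteType K L := Algebra.EssFiniteType.of_comp k K L
  have hfd : FiniteDimensional K L := fd_of_alg
  have hfin : ∀ y : Fin n → K, IsTranscendenceBasis k y →
      FiniteDimensional (IntermediateField.adjoin k (Set.range y)) K := by
    intro y hy
    set K0 := IntermediateField.adjoin k (Set.range y) with hK0
    let iA : Algebra K0 L := inferInstance
    have t1 : IsScalarTower K0 K L := inferInstance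
    have t2 : IsScalarTower k K0 L := inferInstance
    have hess : Algebra.EssFiniteType K0 L := Algebra.EssFiniteType.of_comp k K0 L
    have halg1 : Algebra.IsAlgebraic K0 K := hy.isAlgebraic_field
    have halg2 : Algebra.IsAlgebraic K0 L := Algebra.IsAlgebraic.trans K0 K L
    have h2 : FiniteDimensional K0 L := fd_of_alg
    exact Module.Finite.of_injective (IsScalarTower.toAlgHom K0 K L).toLinearMap
      (algebraMap K L).injective
  have hKL2 : KodTr k L n n := kodTr_pull n hn hfin hK
  obtain ⟨d, rfl⟩ : ∃ d, n = d + 1 := by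
    refine Nat.exists_eq_add_one_of_ne_zero ?_
    rintro rfl
    rw [Nat.cast_zero] at htr
    exact absurd htr (by simp)
  have hM : Algebra.trdeg k M = d := by
    rw [Nat.cast_add, Nat.cast_one] at htr
    exact Cardinal.add_one_inj.1 htr
  refine not_kodTr_of_curve M E d hM hL hsup ?_ hKL2
  rcases hre with ⟨t, ht⟩ | hre
  · rw [canDeg_rational ht]
    norm_num
  · rw [canDeg_elliptic hre]

end Pool.Agent.V1174.GT
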